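import Pool.Agent.MP_6a4325_al.H62.Spec

/-! A homomorphism that doubles supports gives a system without finite dimensional solution. -/

set_option autoImplicit false

namespace Pool.Agent.MP_6a4325_al.H69

open Matrix Finset H62

section Size

variable {F G : Type} [Field F] {m : ℕ}

theorem sz_fin (z : Fin m → MonoidAlgebra F G) : {g : G | ∃ i, (z i).coeff g ≠ 0}.Finite := by
  refine (Set.finite_iUnion fun i => (z i).coeff.support.finite_toSet).subset ?_
  rintro g ⟨i, hi⟩
  exact Set.mem_iUnion.2 ⟨i, Finsupp.mem_support_iff.2 hi⟩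

theorem sz_eq_zero {z : Fin m → MonoidAlgebra F G} (h : sz z = 0) : z = 0 := by
  rw [sz, Set.ncard_eq_zero (sz_fin z)] at h
  funext i
  ext g
  by_contra hg
  have : g ∈ {g : G | ∃ i, (z i).coeff g ≠ 0} := ⟨i, by simpa using hg⟩
  rw [h] at this
  exact this

theorem sz_zero : sz (0 : Fin m → MonoidAlgebra F G) = 0 := by simp [sz]

theorem sz_add (z z' : Fin m → MonoidAlgebra F G) : sz (z + z') ≤ sz z + sz z' := by
  refine le_trans (Set.ncard_le_ncard ?_ ((sz_fin z).union (sz_fin z'))) (Set.ncard_union_le _ _)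
  rintro g ⟨i, hi⟩
  by_contra hc
  simp only [Set.mem_union, Set.mem_ofPred_eq, not_or, not_exists, not_not] at hc
  apply hi
  simp [hc.1 i, hc.2 i]

theorem sz_neg (z : Fin m → MonoidAlgebra F G) : sz (-z) = sz z := by simp [sz]

theorem sz_sum (N : ℕ) (z : ℕ → Fin m → MonoidAlgebra F G) :
    sz (∑ k ∈ range N, z k) ≤ ∑ k ∈ range N, sz (z k) := by
  induction N with
  | zero => simp [sz_zero]
  | succ N ih =>
    rw [sum_range_succ, sum_range_succ]
    exact (sz_add _ _).trans (Nat.add_le_add_right ih _)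

theorem sz_single [One G] (i : Fin m) :
    sz (Pi.single i (MonoidAlgebra.single 1 1) : Fin m → MonoidAlgebra F G) ≤ 1 := by
  classical
  refine le_trans (Set.ncard_le_ncard (t := {1}) ?_ (Set.finite_singleton _)) (by simp)
  rintro g ⟨j, hj⟩
  by_contra hg
  apply hj
  by_cases h : j = i
  · subst h
    simp [Ne.symm hg]
  · simp [h]

end Size

theorem geo (N Q : ℕ) (b : ℕ → ℕ) (h : ∀ k < N, 2 ^ (k + 1) * b k ≤ Q) :
    ∑ k ∈ range N, b k ≤ Q := by
  have key : ∀ n ≤ N, 2 ^ n * ∑ k ∈ range n, b k + Q ≤ 2 ^ n * Q := by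
    intro n
    induction n with
    | zero => simp
    | succ n ih =>
      intro hn
      have h1 := ih (by omega)
      have h2 := h n (by omega)
      rw [sum_range_succ, mul_add]
      rw [pow_succ] at h2 ⊢
      nlinarith
  exact Nat.le_of_mul_le_mul_left (le_trans (Nat.le_add_right _ _) (key N le_rfl)) (by positivity)

theorem std_zero (K R : Type) [Field K] [Ring R] [Algebra K R] [Module.Finite K R] {k : ℕ}
    (hk : Module.finrank K R < k) (r : Fin k → R) :
    ∑ σ : Equiv.Perm (Fin k), (Equiv.Perm.sign σ : ℤ) • (List.ofFn fun i => r (σ i)).prod = 0 := by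
  have h := (MultilinearMap.alternatization (MultilinearMap.mkPiAlgebraFin K k R)).map_linearDependent
    r (fun hl => by
      have := hl.fintype_card_le_finrank
      rw [Fintype.card_fin] at this
      omega)
  rw [MultilinearMap.alternatization_apply] at h
  simpa [Units.smul_def] using h

section Main

variable {F G : Type} [Field F] [Group G] {m : ℕ}
  (u w : Module.End (MonoidAlgebra F G) (Fin m → MonoidAlgebra F G))

/-- the free generators -/
noncomputable def ee (i : ℕ) : Module.End (MonoidAlgebra F G) (Fin m → MonoidAlgebra F G) :=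
  w ^ i * u

/-- words in the generators -/
noncomputable def ew {k : ℕ} (f : Fin k → ℕ) :
    Module.End (MonoidAlgebra F G) (Fin m → MonoidAlgebra F G) :=
  (List.ofFn fun i => ee u w (f i)).prod

/-- the standard polynomial in the generators -/
noncomputable def st (k : ℕ) : Module.End (MonoidAlgebra F G) (Fin m → MonoidAlgebra F G) :=
  ∑ σ : Equiv.Perm (Fin k), (Equiv.Perm.sign σ : ℤ) • ew u w fun i => (σ i : ℕ)

variable {u w}

theorem grow (h : ∀ z z', 2 * sz z ≤ sz (u z + w z') ∧ 2 * sz z' ≤ sz (u z + w z')) (N : ℕ) :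
    ∀ (z : ℕ → Fin m → MonoidAlgebra F G), ∀ j < N,
      2 ^ (j + 1) * sz (z j) ≤ sz (∑ i ∈ range N, ee u w i (z i)) := by
  induction N with
  | zero => intro z j hj; omega
  | succ N ih =>
    intro z j hj
    have e : ∑ i ∈ range (N + 1), ee u w i (z i) =
        u (z 0) + w (∑ i ∈ range N, ee u w i (z (i + 1))) := by
      rw [sum_range_succ', add_comm, map_sum]
      simp only [ee, pow_zero, one_mul, pow_succ', Module.End.mul_apply]
    rw [e]
    cases j with
    | zero =>
      rw [zero_add, pow_one]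
      exact (h (z 0) (∑ i ∈ range N, ee u w i (z (i + 1)))).1
    | succ j =>
      have h1 : 2 ^ (j + 1) * sz (z (j + 1)) ≤ sz (∑ i ∈ range N, ee u w i (z (i + 1))) :=
        ih (fun i => z (i + 1)) j (by omega)
      have h2 := (h (z 0) (∑ i ∈ range N, ee u w i (z (i + 1)))).2
      refine le_trans ?_ h2
      rw [pow_succ' 2 (j + 1), mul_assoc]
      exact Nat.mul_le_mul_left 2 h1

theorem words (h : ∀ z z', 2 * sz z ≤ sz (u z + w z') ∧ 2 * sz z' ≤ sz (u z + w z'))
    {ι : Type} (c : ι → ℤ) (x : Fin m → MonoidAlgebra F G) (i₀ : ι) (hc : c i₀ = 1 ∨ c i₀ = -1)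
    (k : ℕ) : ∀ (S : Finset ι) (f : ι → Fin k → ℕ), i₀ ∈ S → Set.InjOn f S →
      sz x ≤ sz (∑ i ∈ S, c i • ew u w (f i) x) := by
  induction k with
  | zero =>
    intro S f h0 hf
    rw [sum_eq_single_of_mem i₀ h0 fun i hi hne =>
      absurd (hf hi h0 (Subsingleton.elim _ _)) hne]
    rcases hc with hc | hc <;> simp [hc, ew, sz_neg]
  | succ k ih =>
    intro S f h0 hf
    obtain ⟨N, hN⟩ : ∃ N, ∀ i ∈ S, f i 0 ∈ range N :=
      ⟨S.sup (fun i => f i 0) + 1, fun i hi =>
        mem_range.2 (Nat.lt_succ_of_le (le_sup (f := fun i => f i 0) hi))⟩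
    have e : ∑ i ∈ S, c i • ew u w (f i) x = ∑ j ∈ range N, ee u w j
        (∑ i ∈ S.filter (fun i => f i 0 = j), c i • ew u w (Fin.tail (f i)) x) := by
      rw [← sum_fiberwise_of_maps_to hN]
      refine sum_congr rfl fun j _ => ?_
      rw [map_sum]
      refine sum_congr rfl fun i hi => ?_
      rw [map_zsmul, ← (mem_filter.1 hi).2, ew, List.ofFn_succ, List.prod_cons,
        Module.End.mul_apply]
      rfl
    have h1 := grow h N (fun j => ∑ i ∈ S.filter (fun i => f i 0 = j),
      c i • ew u w (Fin.tail (f i)) x) (f i₀ 0) (mem_range.1 (hN _ h0))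
    have h2 := ih (S.filter fun i => f i 0 = f i₀ 0) (fun i => Fin.tail (f i))
      (mem_filter.2 ⟨h0, rfl⟩) fun a ha b hb hab => by
        have ha' := mem_filter.1 (mem_coe.1 ha)
        have hb' := mem_filter.1 (mem_coe.1 hb)
        refine hf ha'.1 hb'.1 ?_
        rw [← Fin.cons_self_tail (f a), ← Fin.cons_self_tail (f b), ha'.2, hb'.2]
        exact congrArg _ hab
    rw [e]
    exact h2.trans ((Nat.le_mul_of_pos_left _ (by positivity)).trans h1)

theorem st_grow (h : ∀ z z', 2 * sz z ≤ sz (u z + w z') ∧ 2 * sz z' ≤ sz (u z + w z')) (k : ℕ)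
    (x : Fin m → MonoidAlgebra F G) : sz x ≤ sz (st u w k x) := by
  have := words h (fun σ : Equiv.Perm (Fin k) => (Equiv.Perm.sign σ : ℤ)) x 1 (.inl (by simp)) k
    univ (fun σ i => (σ i : ℕ)) (mem_univ _) fun a _ b _ hab =>
      Equiv.ext fun i => Fin.ext (congrFun hab i)
  rw [st, LinearMap.sum_apply]
  exact this

variable (u w) in
/-- the system of equations -/
noncomputable def sys : (ℕ →₀ Fin m → MonoidAlgebra F G) →ₗ[MonoidAlgebra F G]
    Fin m → MonoidAlgebra F G :=
  Finsupp.lsum ℕ fun k => 1 - w * ee u w k * st u w k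

theorem sys_ne (h : ∀ z z', 2 * sz z ≤ sz (u z + w z') ∧ 2 * sz z' ≤ sz (u z + w z'))
    (hm : 0 < m) : LinearMap.range (sys u w) ≠ ⊤ := by
  intro ht
  obtain ⟨x, hx⟩ : (Pi.single ⟨0, hm⟩ (MonoidAlgebra.single 1 1) : Fin m → MonoidAlgebra F G) ∈
      LinearMap.range (sys u w) := ht ▸ Submodule.mem_top
  obtain ⟨N, hN⟩ : ∃ N, x.support ⊆ range N := exists_nat_subset_range _
  have e : sys u w x = ∑ k ∈ range N, x k - w (∑ k ∈ range N, ee u w k (st u w k (x k))) := by
    rw [sys, Finsupp.lsum_apply, Finsupp.sum_of_support_subset _ hN _ (fun _ _ => map_zero _),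
      map_sum, ← sum_sub_distrib]
    rfl
  set q := ∑ k ∈ range N, ee u w k (st u w k (x k)) with hq
  have h1 : ∀ k < N, 2 ^ (k + 1) * sz (x k) ≤ sz q := fun k hk =>
    (Nat.mul_le_mul_left _ (st_grow h k (x k))).trans (grow h N (fun k => st u w k (x k)) k hk)
  have h2 := geo N _ _ h1
  have h3 := (h 0 q).2
  rw [map_zero, zero_add] at h3
  have h4 : w q = ∑ k ∈ range N, x k + -sys u w x := by rw [e]; abel
  have h5 := sz_add (∑ k ∈ range N, x k) (-sys u w x)
  rw [← h4, sz_neg, hx] at h5
  have h6 := sz_sum N x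
  have h7 := sz_single (F := F) (G := G) ⟨0, hm⟩
  have h8 : x = 0 := by
    refine Finsupp.ext fun k => ?_
    by_cases hk : k < N
    · refine sz_eq_zero ?_
      have h9 := h1 k hk
      have h10 : 2 * sz (x k) ≤ 2 ^ (k + 1) * sz (x k) :=
        Nat.mul_le_mul_right _ (by rw [pow_succ]; have := Nat.one_le_two_pow (n := k); omega)
      omega
    · exact Finsupp.notMem_support_iff.1 fun hs => hk (mem_range.1 (hN hs))
  rw [h8, map_zero] at hx
  have := congrFun hx ⟨0, hm⟩
  simp only [Pi.zero_apply, Pi.single_eq_same] at this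
  exact one_ne_zero (MonoidAlgebra.single_eq_zero.1 this.symm)

variable {K : Type} [Field K] [Algebra F K] {n : ℕ} (ρ : G →* Matrix (Fin n) (Fin n) K)

/-- evaluation of a vector of the free module -/
noncomputable def ev (v : Fin m → Fin n → K) (x : Fin m → MonoidAlgebra F G) : Fin n → K :=
  ∑ i, act F ρ (x i) *ᵥ v i

theorem ev_add (v : Fin m → Fin n → K) (x y : Fin m → MonoidAlgebra F G) :
    ev ρ v (x + y) = ev ρ v x + ev ρ v y := by
  simp only [ev, Pi.add_apply, map_add, add_mulVec, sum_add_distrib]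

theorem ev_zero (v : Fin m → Fin n → K) : ev ρ v (0 : Fin m → MonoidAlgebra F G) = 0 := by
  simp [ev]

theorem ev_smul (v : Fin m → Fin n → K) (r : MonoidAlgebra F G) (x : Fin m → MonoidAlgebra F G) :
    ev ρ v (r • x) = act F ρ r *ᵥ ev ρ v x := by
  simp only [ev, Pi.smul_apply, smul_eq_mul, map_mul, mulVec_sum, mulVec_mulVec]

theorem ev_sum (v : Fin m → Fin n → K) (x : Fin m → Fin m → MonoidAlgebra F G) (S : Finset (Fin m)) :
    ev ρ v (∑ i ∈ S, x i) = ∑ i ∈ S, ev ρ v (x i) := by
  induction S using Finset.induction_on with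
  | empty => simp [ev_zero]
  | insert a S ha ih => rw [sum_insert ha, sum_insert ha, ev_add, ih]

theorem ev_single (v : Fin m → Fin n → K) (i : Fin m) :
    ev ρ v (Pi.single i 1 : Fin m → MonoidAlgebra F G) = v i := by
  rw [ev, sum_eq_single_of_mem i (mem_univ _) fun j _ hj => by simp [hj]]
  simp

/-- the transposed action of an endomorphism -/
noncomputable def tr (e : Module.End (MonoidAlgebra F G) (Fin m → MonoidAlgebra F G)) :
    Module.End K (Fin m → Fin n → K) where
  toFun v i := ev ρ v (e (Pi.single i 1))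
  map_add' v v' := by
    funext i
    simp only [ev, Pi.add_apply, mulVec_add, sum_add_distrib]
  map_smul' c v := by
    funext i
    simp only [ev, Pi.smul_apply, mulVec_smul, RingHom.id_apply, smul_sum]

theorem tr_apply (e : Module.End (MonoidAlgebra F G) (Fin m → MonoidAlgebra F G))
    (v : Fin m → Fin n → K) (i : Fin m) : tr ρ e v i = ev ρ v (e (Pi.single i 1)) := rfl

theorem ev_tr (e : Module.End (MonoidAlgebra F G) (Fin m → MonoidAlgebra F G))
    (v : Fin m → Fin n → K) (x : Fin m → MonoidAlgebra F G) :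
    ev ρ (tr ρ e v) x = ev ρ v (e x) := by
  have hx : x = ∑ i, x i • (Pi.single i 1 : Fin m → MonoidAlgebra F G) := by
    funext j
    simp [Finset.sum_apply, Pi.single_apply]
  conv_rhs => rw [hx, map_sum, ev_sum]
  simp only [map_smul, ev_smul]
  rfl

/-- the transposed action as a ring homomorphism -/
noncomputable def trH : Module.End (MonoidAlgebra F G) (Fin m → MonoidAlgebra F G) →+*
    (Module.End K (Fin m → Fin n → K))ᵐᵒᵖ where
  toFun e := MulOpposite.op (tr ρ e)
  map_one' := by
    rw [← MulOpposite.op_one]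
    refine congrArg _ (LinearMap.ext fun v => funext fun i => ?_)
    rw [tr_apply, Module.End.one_apply, Module.End.one_apply, ev_single]
  map_mul' e e' := by
    rw [← MulOpposite.op_mul]
    refine congrArg _ (LinearMap.ext fun v => funext fun i => ?_)
    rw [Module.End.mul_apply, tr_apply, tr_apply, ev_tr, Module.End.mul_apply]
  map_zero' := by
    rw [← MulOpposite.op_zero]
    refine congrArg _ (LinearMap.ext fun v => funext fun i => ?_)
    rw [tr_apply, LinearMap.zero_apply, ev_zero]
    rfl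
  map_add' e e' := by
    rw [← MulOpposite.op_add]
    refine congrArg _ (LinearMap.ext fun v => funext fun i => ?_)
    rw [tr_apply, LinearMap.add_apply, ev_add]
    rfl

end Main

theorem alg : SAlg := by
  rintro F G _ _ ⟨m, u, w, hm, h⟩ hW
  obtain ⟨K, _, _, _, n, ρ, v, hv, hs⟩ := hW m _ (sys_ne h hm)
  set k := Module.finrank K (Module.End K (Fin m → Fin n → K))ᵐᵒᵖ + 1 with hk
  have h0 : trH ρ (st u w k) = 0 := by
    rw [← std_zero K _ (k := k) (by omega) fun i => trH ρ (ee u w i), st, map_sum]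
    refine sum_congr rfl fun σ _ => ?_
    rw [map_zsmul, ew, map_list_prod, List.map_ofFn]
    rfl
  have h1 : trH ρ (1 - w * ee u w k * st u w k) = 1 := by
    rw [map_sub, map_one, map_mul, h0, mul_zero, sub_zero]
  have h2 : tr ρ (1 - w * ee u w k * st u w k) = 1 := MulOpposite.op_injective h1
  refine hv (funext fun i => ?_)
  have h3 := hs _ ⟨Finsupp.single k (Pi.single i 1), rfl⟩
  rw [sys, Finsupp.lsum_single] at h3
  have h4 := tr_apply ρ (1 - w * ee u w k * st u w k) v i
  rw [h2, Module.End.one_apply] at h4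
  exact h4.trans h3

end Pool.Agent.MP_6a4325_al.H69
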