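import Pool.Agent.MP_6a4325_al.H62.Base2

/-!
A plinth with a commutative action embeds in the `q`-adic integers.
-/

set_option autoImplicit false

namespace Pool.Agent.MP_6a4325_al.H69

open H62 Polynomial

lemma schur {g : ℤ[X]} (hg : g.natDegree ≠ 0) (B : ℕ) :
    ∃ l : ℕ, l.Prime ∧ B < l ∧ ∃ a : ℤ, (l : ℤ) ∣ g.eval a := by
  by_cases hc : g.coeff 0 = 0
  · obtain ⟨l, h1, h2⟩ := Nat.exists_infinite_primes (B + 1)
    exact ⟨l, h2, h1, 0, by simp [← coeff_zero_eq_eval_zero, hc]⟩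
  set c := g.coeff 0
  have hM : c * (B.factorial : ℤ) ≠ 0 := mul_ne_zero hc (by exact_mod_cast B.factorial_ne_zero)
  have hne : ∀ d : ℤ, g - C d ≠ 0 := fun d e => hg (by rw [sub_eq_zero.1 e, natDegree_C])
  obtain ⟨t, ht⟩ : ∃ t : ℤ, ¬ ((g - C c) * (g - C (-c))).IsRoot (c * B.factorial * t) := by
    by_contra hn
    push Not at hn
    exact mul_ne_zero (hne c) (hne (-c)) (eq_zero_of_infinite_isRoot _
      (Set.infinite_of_injective_forall_mem (mul_right_injective₀ hM) hn))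
  set z := 1 + B.factorial * (t * (divX g).eval (c * B.factorial * t))
  have e : g.eval (c * B.factorial * t) = c * z := by
    conv_lhs => rw [← X_mul_divX_add g]
    simp only [eval_add, eval_mul, eval_X, eval_C]
    ring
  simp only [IsRoot, eval_mul, eval_sub, eval_C, e, mul_eq_zero, not_or] at ht
  obtain ⟨l, hl, hd⟩ := Nat.exists_prime_and_dvd (n := z.natAbs) fun h => by
    rcases Int.natAbs_eq_iff.1 h with h | h
    · exact ht.1 (by rw [h]; simp)
    · exact ht.2 (by rw [h]; simp)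
  have hd' : (l : ℤ) ∣ z := Int.natCast_dvd.2 hd
  refine ⟨l, hl, not_le.1 fun hle => ?_, _, e ▸ hd'.mul_left c⟩
  have h1 : (l : ℤ) ∣ B.factorial := by exact_mod_cast Nat.dvd_factorial hl.pos hle
  have := (dvd_add_left (h1.mul_right _)).1 hd'
  exact hl.one_lt.ne' (by exact_mod_cast Int.eq_one_of_dvd_one (by positivity) this)

lemma exists_root_padic {g : ℚ[X]} (hg : Irreducible g) (B : ℕ) :
    ∃ l : ℕ, ∃ _ : Fact l.Prime, B < l ∧ ∃ z : ℚ_[l], aeval z g = 0 := by
  obtain ⟨u, v, huv⟩ := hg.separable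
  obtain ⟨b, hb, hG⟩ := IsLocalization.integerNormalization_spec (nonZeroDivisors ℤ) g
  obtain ⟨b1, hb1, hU⟩ := IsLocalization.integerNormalization_spec (nonZeroDivisors ℤ) u
  obtain ⟨b2, hb2, hV⟩ := IsLocalization.integerNormalization_spec (nonZeroDivisors ℤ) v
  set G := IsLocalization.integerNormalization (nonZeroDivisors ℤ) g
  set U := IsLocalization.integerNormalization (nonZeroDivisors ℤ) u
  set V := IsLocalization.integerNormalization (nonZeroDivisors ℤ) v
  have hb0 := nonZeroDivisors.ne_zero hb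
  have hD : b * b1 * b2 ≠ 0 :=
    mul_ne_zero (mul_ne_zero hb0 (nonZeroDivisors.ne_zero hb1)) (nonZeroDivisors.ne_zero hb2)
  have e : C b2 * U * G + C b1 * V * derivative G = C (b * b1 * b2) := by
    apply map_injective (algebraMap ℤ ℚ) (algebraMap ℤ ℚ).injective_int
    simp only [Polynomial.map_add, Polynomial.map_mul, ← derivative_map, hG, hU, hV,
      zsmul_eq_mul, derivative_mul, derivative_intCast, eq_intCast, Polynomial.map_intCast,
      map_mul]
    linear_combination (b * b1 * b2 : ℚ[X]) * huv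
  have hdeg : G.natDegree ≠ 0 := by
    rw [← natDegree_map_eq_of_injective (algebraMap ℤ ℚ).injective_int, hG, zsmul_eq_mul,
      ← C_eq_intCast, natDegree_C_mul (by exact_mod_cast hb0)]
    exact hg.natDegree_pos.ne'
  obtain ⟨l, hl, hB, a, ha⟩ := schur hdeg (max B (b * b1 * b2).natAbs)
  have := Fact.mk hl
  have ha' : ¬ (l : ℤ) ∣ (derivative G).eval a := fun h => by
    have := congrArg (eval a) e
    simp only [eval_add, eval_mul, eval_C] at this
    have h2 : (l : ℤ) ∣ b * b1 * b2 := this ▸ (ha.mul_left _).add (h.mul_left _)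
    exact absurd (Nat.le_of_dvd (Int.natAbs_pos.2 hD) (Int.natCast_dvd.1 h2))
      (not_le.2 ((le_max_right _ _).trans_lt hB))
  have hcast : ∀ f : ℤ[X], aeval (a : ℤ_[l]) f = ((f.eval a : ℤ) : ℤ_[l]) := fun f =>
    aeval_algebraMap_apply_eq_algebraMap_eval (A := ℤ_[l]) a f
  obtain ⟨z, hz, -⟩ := hensels_lemma (F := G) (a := (a : ℤ_[l])) (by
    rw [hcast, hcast, le_antisymm (PadicInt.norm_le_one _)
      (not_lt.1 fun h => ha' ((PadicInt.norm_int_lt_one_iff_dvd _).1 h)), one_pow]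
    exact (PadicInt.norm_int_lt_one_iff_dvd _).2 ha)
  refine ⟨l, inferInstance, (le_max_left _ _).trans_lt hB, z, ?_⟩
  have h1 : aeval (z : ℚ_[l]) G = 0 := by
    have := aeval_algHom_apply (PadicInt.Coe.ringHom (p := l)).toIntAlgHom z G
    rw [hz, map_zero] at this
    exact this
  rw [← aeval_map_algebraMap ℚ, hG, map_zsmul, smul_eq_zero] at h1
  exact h1.resolve_left hb0

variable {G R : Type} [Group G]

/-- additive on a subgroup -/
def Ad [AddCommGroup R] (A : Subgroup G) (f : G → R) : Prop :=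
  ∀ a ∈ A, ∀ b ∈ A, f (a * b) = f a + f b

section Ad

variable [AddCommGroup R] {A : Subgroup G} {f : G → R}

lemma Ad.one (h : Ad A f) : f 1 = 0 := by simpa using h 1 A.one_mem 1 A.one_mem

lemma Ad.inv (h : Ad A f) {a : G} (ha : a ∈ A) : f a⁻¹ = -f a := by
  rw [eq_neg_iff_add_eq_zero, ← h _ (A.inv_mem ha) _ ha, inv_mul_cancel, h.one]

lemma Ad.pow (h : Ad A f) {a : G} (ha : a ∈ A) (n : ℕ) : f (a ^ n) = n • f a := by
  induction n with
  | zero => simpa using h.one
  | succ n ih => rw [pow_succ, h _ (A.pow_mem ha n) _ ha, ih, succ_nsmul]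

lemma Ad.ind (h : Ad A f) {T : Set G} (hT : Subgroup.closure T = A) (S : AddSubgroup R)
    (hS : ∀ t ∈ T, f t ∈ S) {a : G} (ha : a ∈ A) : f a ∈ S := by
  subst hT
  induction ha using Subgroup.closure_induction with
  | mem t ht => exact hS t ht
  | one => rw [h.one]; exact S.zero_mem
  | mul a b ha hb h1 h2 => rw [h a ha b hb]; exact S.add_mem h1 h2
  | inv a ha h1 => rw [h.inv ha]; exact S.neg_mem h1

end Ad

lemma exists_ad {A : Subgroup G} (hc : Cm A A) (ht : Tf A) (h0 : A ≠ ⊥) (L : Type) [Field L]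
    [CharZero L] : ∃ f : G → L, Ad A f ∧ (∀ g ∉ A, f g = 0) ∧ f ≠ 0 := by
  classical
  obtain ⟨a, ha⟩ := Subgroup.ne_bot_iff_exists_ne_one.1 h0
  let _ := hc.commGroup
  obtain ⟨φ, hφ⟩ := (Module.Baer.of_divisible L).extension_property_addMonoidHom
    (zmultiplesHom (Additive A) (Additive.ofMul a))
    (injective_zpow_iff_not_isOfFinOrder.2 fun h : IsOfFinOrder a =>
      ha (Subtype.ext (ht a a.2 (A.subtype.isOfFinOrder h)))) (Int.castAddHom L)
  refine ⟨fun g => if h : g ∈ A then φ (Additive.ofMul ⟨g, h⟩) else 0, fun a ha b hb => ?_,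
    fun g hg => dif_neg hg, fun e => ?_⟩
  · beta_reduce
    rw [dif_pos ha, dif_pos hb, dif_pos (A.mul_mem ha hb), ← map_add]
    rfl
  · have h1 := congrFun e a
    have h2 := DFunLike.congr_fun hφ 1
    simp only [a.2, dif_pos, Subtype.coe_eta, Pi.zero_apply] at h1
    simp [h1] at h2

/-- a common eigenvector of the conjugations -/
lemma exists_eig {A : Subgroup G} (hA : Plinth A) (hc : CommAct A) (L : Type) [Field L]
    [CharZero L] [IsAlgClosed L] : ∃ f : G → L, Ad A f ∧ (∀ g ∉ A, f g = 0) ∧ f ≠ 0 ∧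
      ∀ g, ∃ c, ∀ a, f (g * a * g⁻¹) = c * f a := by
  obtain ⟨hn, h0, ⟨T, hT⟩, h1, h2, -⟩ := hA
  let U : Submodule L (G → L) :=
    { carrier := {f | Ad A f ∧ ∀ g ∉ A, f g = 0}
      add_mem' := fun {f g} hf hg => ⟨fun a ha b hb => by
        simp only [Pi.add_apply, hf.1 a ha b hb, hg.1 a ha b hb]; ring,
        fun a ha => by simp [hf.2 a ha, hg.2 a ha]⟩
      zero_mem' := ⟨fun _ _ _ _ => by simp, fun _ _ => rfl⟩
      smul_mem' := fun c f hf => ⟨fun a ha b hb => by simp [hf.1 a ha b hb, mul_add],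
        fun a ha => by simp [hf.2 a ha]⟩ }
  have : FiniteDimensional L U := FiniteDimensional.of_injective
    ((LinearMap.funLeft L L ((↑) : T → G)).comp U.subtype)
    ((injective_iff_map_eq_zero _).2 fun f hf => Subtype.ext (funext fun g => by
      by_cases hg : g ∈ A
      · exact f.2.1.ind hT ⊥ (fun t ht => congrFun hf ⟨t, ht⟩) hg
      · exact f.2.2 g hg))
  have nm : ∀ g a, a ∉ A → g * a * g⁻¹ ∉ A := fun g a ha e =>
    ha (by simpa [mul_assoc] using hn.conj_mem _ e g⁻¹)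
  obtain ⟨f0, f1, f2, f3⟩ := exists_ad h1 h2 h0 L
  obtain ⟨f, hf, g0, g1⟩ := exists_eigen (fun g => LinearMap.funLeft L L fun a => g * a * g⁻¹) U
    ((Submodule.ne_bot_iff _).2 ⟨f0, ⟨f1, f2⟩, f3⟩)
    (fun g h f hf => funext fun a => by
      change f (h * (g * a * g⁻¹) * h⁻¹) = f (g * (h * a * h⁻¹) * g⁻¹)
      by_cases ha : a ∈ A
      · exact congrArg f (by simpa [mul_assoc] using hc h g a ha)
      · rw [hf.2 _ (nm _ _ (nm _ _ ha)), hf.2 _ (nm _ _ (nm _ _ ha))])
    fun g f hf => ⟨fun a ha b hb => (congrArg f (by group)).trans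
      (hf.1 _ (hn.conj_mem a ha g) _ (hn.conj_mem b hb g)), fun a ha => hf.2 _ (nm g a ha)⟩
  exact ⟨f, hf.1, hf.2, g0, fun g => (g1 g).imp fun c hc a => congrFun hc a⟩

/-- an eigenvector with values in a `q`-adic field -/
lemma exists_padic (B : ℕ) {A : Subgroup G} (hA : Plinth A) (hc : CommAct A) :
    ∃ (q : ℕ) (_ : Fact q.Prime), B < q ∧ ∃ f : G → ℚ_[q], Ad A f ∧ (∀ g ∉ A, f g = 0) ∧ f ≠ 0 ∧
      ∀ g, ∃ c, ∀ a, f (g * a * g⁻¹) = c * f a := by
  classical
  obtain ⟨f, f1, f2, f3, f4⟩ := exists_eig hA hc (AlgebraicClosure ℚ)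
  obtain ⟨T, hT⟩ := hA.2.2.1
  let K := IntermediateField.adjoin ℚ (f '' T)
  have : Finite (f '' T) := (T.finite_toSet.image f).to_subtype
  have : FiniteDimensional ℚ K :=
    IntermediateField.finiteDimensional_adjoin fun x _ =>
      ((AlgebraicClosure.isAlgebraic ℚ).isAlgebraic x).isIntegral
  let pb := Field.powerBasisOfFiniteOfSeparable ℚ K
  obtain ⟨q, hq, hB, z, hz⟩ := exists_root_padic (minpoly.irreducible pb.isIntegral_gen) B
  have hK : ∀ g, f g ∈ K := fun g => by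
    by_cases hg : g ∈ A
    · exact f1.ind hT K.toSubfield.toAddSubgroup
        (fun t ht => IntermediateField.subset_adjoin _ _ ⟨t, ht, rfl⟩) hg
    · rw [f2 g hg]; exact K.zero_mem
  obtain ⟨a, ha⟩ := Function.ne_iff.1 f3
  have ha' : f a ≠ 0 := ha
  refine ⟨q, hq, hB, fun g => pb.lift z hz ⟨f g, hK g⟩, fun a ha b hb => ?_, fun g hg => ?_,
    fun e => ha' ?_, fun g => ?_⟩
  · rw [← map_add]
    exact congrArg _ (Subtype.ext (f1 a ha b hb))
  · exact (map_eq_zero _).2 (Subtype.ext (f2 g hg))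
  · exact congrArg Subtype.val ((map_eq_zero (pb.lift z hz)).1 (congrFun e a))
  · obtain ⟨c, hc⟩ := f4 g
    refine ⟨pb.lift z hz ⟨c, ?_⟩, fun b => ?_⟩
    · rw [← mul_div_cancel_right₀ c ha', ← hc]
      exact K.div_mem (hK _) (hK _)
    · rw [← map_mul]
      exact congrArg _ (Subtype.ext (hc b))

theorem emb : SEmb := by
  intro p G _ A hA hc
  obtain ⟨q, hq, hB, f, f1, f2, f3, f4⟩ := exists_padic (max p 2) hA hc
  obtain ⟨hn, -, ⟨T, hT⟩, -, -, h5⟩ := hA
  obtain ⟨a0, ha⟩ := Function.ne_iff.1 f3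
  have ha' : f a0 ≠ 0 := ha
  obtain ⟨r, r0, hr⟩ : ∃ r : ℝ, 0 < r ∧ ∀ g, ‖f g‖ ≤ r := by
    obtain ⟨r, hr⟩ := (T.finite_toSet.image fun t => ‖f t‖).bddAbove
    refine ⟨max r 1, by positivity, fun g => ?_⟩
    by_cases hg : g ∈ A
    · exact f1.ind hT
        { carrier := {x | ‖x‖ ≤ max r 1}
          add_mem' := fun h1 h2 => (Padic.nonarchimedean _ _).trans (max_le h1 h2)
          zero_mem' := by simp
          neg_mem' := fun h1 => by simpa using h1 }
        (fun t ht => (hr ⟨t, ht, rfl⟩).trans (le_max_left _ _)) hg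
    · simp [f2 g hg]
  choose c hc using f4
  let D : G →* ℚ_[q] :=
    { toFun := c
      map_one' := mul_right_cancel₀ ha' (by simpa using (hc 1 a0).symm)
      map_mul' := fun g h => mul_right_cancel₀ ha' (by
        rw [mul_assoc, ← hc, ← hc, ← hc]; congr 1; group) }
  have hD : ∀ g, ‖D g‖ ≤ 1 := fun g => not_lt.1 fun h => by
    obtain ⟨n, hn⟩ := pow_unbounded_of_one_lt (r / ‖f a0‖) h
    rw [div_lt_iff₀ (norm_pos_iff.2 ha'), ← norm_pow, ← map_pow, ← norm_mul] at hn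
    exact hn.not_ge ((congrArg norm (hc (g ^ n) a0)).ge.trans (hr _))
  obtain ⟨s, s0, hs⟩ := NormedField.exists_norm_lt ℚ_[q] (inv_pos.2 r0)
  have hf : ∀ g, ‖s * f g‖ ≤ 1 := fun g => by
    rw [norm_mul, ← inv_mul_cancel₀ r0.ne']
    exact mul_le_mul hs.le (hr g) (norm_nonneg _) (inv_pos.2 r0).le
  let E : G →* ℤ_[q] :=
    { toFun := fun g => ⟨D g, hD g⟩
      map_one' := Subtype.ext D.map_one
      map_mul' := fun g h => Subtype.ext (D.map_mul g h) }
  refine ⟨q, hq, (le_max_left _ _).trans_lt hB, (le_max_right _ _).trans_lt hB,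
    fun g => ⟨s * f g, hf g⟩, E.toHomUnits, fun a ha b hb => Subtype.ext ?_, fun a ha e => ?_,
    fun g a _ => Subtype.ext ?_⟩
  · change s * f (a * b) = s * f a + s * f b
    rw [f1 a ha b hb, mul_add]
  · have e1 : f a = 0 :=
      (mul_eq_zero.1 (congrArg Subtype.val e)).resolve_left (norm_pos_iff.1 s0)
    let B : Subgroup G :=
      { carrier := {a | a ∈ A ∧ f a = 0}
        mul_mem' := fun h1 h2 => ⟨A.mul_mem h1.1 h2.1, by rw [f1 _ h1.1 _ h2.1, h1.2, h2.2, add_zero]⟩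
        one_mem' := ⟨A.one_mem, f1.one⟩
        inv_mem' := fun h1 => ⟨A.inv_mem h1.1, by rw [f1.inv h1.1, h1.2, neg_zero]⟩ }
    refine (h5 ⊤ inferInstance B (fun _ h => h.1) fun k _ b hb =>
      ⟨hn.conj_mem b hb.1 k, by rw [hc, hb.2, mul_zero]⟩).elim
      (fun h => Subgroup.mem_bot.1 (h ▸ show a ∈ B from ⟨ha, e1⟩)) fun h => ?_
    have a1 : a0 ∈ A := by_contra fun h => ha' (f2 _ h)
    obtain ⟨n, n0, -, ⟨-, h1⟩, -⟩ := Subgroup.exists_pow_mem_of_relIndex_ne_zero h a1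
    rw [f1.pow a1, smul_eq_zero] at h1
    exact absurd h1 (not_or.2 ⟨n0.ne', ha'⟩)
  · change s * f (g * a * g⁻¹) = c g * (s * f a)
    rw [hc, mul_left_comm]

end Pool.Agent.MP_6a4325_al.H69
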